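import Pool.Agent.U585.SK.Lin
import Pool.Agent.U585.SK.Gr

/-!
# The Moebius function kept on a set of primes, random signs elsewhere: exponential sums
-/

set_option autoImplicit false

open Finset MeasureTheory Filter Topology

namespace Pool.Agent.U322.FZ

open Pool.Agent.U585.GC (Signs rf)
open Pool.Agent.U585.SK (sqf_prod)

/-- `e(y)` -/
noncomputable def e (y : ℝ) : ℂ := Complex.exp (((2 * Real.pi * y : ℝ) : ℂ) * Complex.I)

/-- the exponential sum -/
noncomputable def Fs (s : ℕ → ℝ) (R : ℕ) (x : ℝ) : ℂ :=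
  ∑ n ∈ Icc 1 R, ((rf s n : ℝ) : ℂ) * e (n * x)

open Classical in
/-- the values `-1` on `A`, zero elsewhere -/
noncomputable def froz (A : Set ℕ) (p : ℕ) : ℝ := if p ∈ A then -1 else 0

open Classical in
/-- the values `-1` on `A`, the values of `g` elsewhere -/
noncomputable def mix (A : Set ℕ) (g : ℕ → ℝ) (p : ℕ) : ℝ := if p ∈ A then -1 else g p

open Classical in
/-- the product of the primes of `n` in `A` -/
noncomputable def pin (A : Set ℕ) (n : ℕ) : ℕ := ∏ p ∈ n.primeFactors.filter (· ∈ A), p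

open Classical in
/-- the product of the primes of `n` outside `A` -/
noncomputable def pout (A : Set ℕ) (n : ℕ) : ℕ := ∏ p ∈ n.primeFactors.filter (¬ · ∈ A), p

lemma pin_mul_pout (A : Set ℕ) {n : ℕ} (h : Squarefree n) : pout A n * pin A n = n := by
  classical
  unfold pin pout
  rw [mul_comm, prod_filter_mul_prod_filter_not, Nat.prod_primeFactors_of_squarefree h]

lemma pf_pin (A : Set ℕ) (n : ℕ) : (pin A n).primeFactors =
    open Classical in n.primeFactors.filter (· ∈ A) := by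
  classical
  exact Nat.primeFactors_prod fun p hp => Nat.prime_of_mem_primeFactors (mem_filter.1 hp).1

lemma pf_pout (A : Set ℕ) (n : ℕ) : (pout A n).primeFactors =
    open Classical in n.primeFactors.filter (¬ · ∈ A) := by
  classical
  exact Nat.primeFactors_prod fun p hp => Nat.prime_of_mem_primeFactors (mem_filter.1 hp).1

lemma sq_pin (A : Set ℕ) (n : ℕ) : Squarefree (pin A n) := by
  classical
  exact sqf_prod fun p hp => Nat.prime_of_mem_primeFactors (mem_filter.1 hp).1

lemma sq_pout (A : Set ℕ) (n : ℕ) : Squarefree (pout A n) := by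
  classical
  exact sqf_prod fun p hp => Nat.prime_of_mem_primeFactors (mem_filter.1 hp).1

/-- squarefree with all primes in `A` -/
def In (A : Set ℕ) (n : ℕ) : Prop := Squarefree n ∧ ∀ p ∈ n.primeFactors, p ∈ A

/-- squarefree with all primes outside `A` -/
def Out (A : Set ℕ) (n : ℕ) : Prop := Squarefree n ∧ ∀ p ∈ n.primeFactors, p ∉ A

lemma cop {A : Set ℕ} {d m : ℕ} (hd : Out A d) (hm : In A m) : Nat.Coprime d m := by
  have hd0 : d ≠ 0 := hd.1.ne_zero
  have hm0 : m ≠ 0 := hm.1.ne_zero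
  rw [← Nat.disjoint_primeFactors hd0 hm0, Finset.disjoint_left]
  intro p hp hq
  exact hd.2 p hp (hm.2 p hq)

lemma pin_mul {A : Set ℕ} {d m : ℕ} (hd : Out A d) (hm : In A m) : pin A (d * m) = m := by
  classical
  unfold pin
  have h : (d * m).primeFactors.filter (· ∈ A) = m.primeFactors := by
    rw [(cop hd hm).primeFactors_mul]
    ext p
    rw [mem_filter, mem_union]
    constructor
    · rintro ⟨h | h, hA⟩
      · exact absurd hA (hd.2 p h)
      · exact h
    · intro h
      exact ⟨Or.inr h, hm.2 p h⟩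
  rw [h, Nat.prod_primeFactors_of_squarefree hm.1]

lemma pout_mul {A : Set ℕ} {d m : ℕ} (hd : Out A d) (hm : In A m) : pout A (d * m) = d := by
  classical
  unfold pout
  have h : (d * m).primeFactors.filter (¬ · ∈ A) = d.primeFactors := by
    rw [(cop hd hm).primeFactors_mul]
    ext p
    rw [mem_filter, mem_union]
    constructor
    · rintro ⟨h | h, hA⟩
      · exact h
      · exact absurd (hm.2 p h) hA
    · intro h
      exact ⟨Or.inl h, hd.2 p h⟩
  rw [h, Nat.prod_primeFactors_of_squarefree hd.1]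

lemma rf_mul {A : Set ℕ} (g : ℕ → ℝ) {d m : ℕ} (hd : Out A d) (hm : In A m) :
    rf (mix A g) (d * m) = rf g d * rf (froz A) m := by
  classical
  have hsq : Squarefree (d * m) := (Nat.squarefree_mul (cop hd hm)).2 ⟨hd.1, hm.1⟩
  unfold rf
  rw [if_pos hsq, if_pos hd.1, if_pos hm.1, (cop hd hm).primeFactors_mul,
    prod_union (Nat.Coprime.disjoint_primeFactors (cop hd hm))]
  congr 1
  · refine prod_congr rfl fun p hp => ?_
    unfold mix
    rw [if_neg (hd.2 p hp)]
  · refine prod_congr rfl fun p hp => ?_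
    unfold mix froz
    rw [if_pos (hm.2 p hp), if_pos (hm.2 p hp)]

lemma rf_froz_zero {A : Set ℕ} {m : ℕ} (h : ¬ In A m) : rf (froz A) m = 0 := by
  classical
  unfold rf
  split_ifs with hs
  · have h1 : ∃ p ∈ m.primeFactors, p ∉ A := by
      by_contra hcon
      push Not at hcon
      exact h ⟨hs, hcon⟩
    obtain ⟨p, hp, hpA⟩ := h1
    refine prod_eq_zero hp ?_
    unfold froz
    rw [if_neg hpA]
  · rfl

open Classical in
/-- the coefficients -/
noncomputable def cf (A : Set ℕ) (R : ℕ) (x : ℝ) (d : ℕ) : ℂ :=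
  if Out A d then Fs (froz A) (R / d) (d * x) else 0

/-- the decomposition -/
theorem decomp (A : Set ℕ) (g : ℕ → ℝ) (R : ℕ) (x : ℝ) :
    Fs (mix A g) R x = ∑ d ∈ Icc 1 R, cf A R x d * ((rf g d : ℝ) : ℂ) := by
  classical
  have h1 : Fs (mix A g) R x = ∑ n ∈ (Icc 1 R).filter Squarefree,
      ((rf (mix A g) n : ℝ) : ℂ) * e (n * x) := by
    unfold Fs
    rw [sum_filter]
    refine sum_congr rfl fun n _ => ?_
    split_ifs with h
    · rfl
    · have : rf (mix A g) n = 0 := by
        unfold rf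
        rw [if_neg h]
      rw [this]
      simp
  have h2 : ∑ d ∈ Icc 1 R, cf A R x d * ((rf g d : ℝ) : ℂ) =
      ∑ d ∈ (Icc 1 R).filter (Out A), ∑ m ∈ (Icc 1 (R / d)).filter (In A),
        ((rf (mix A g) (d * m) : ℝ) : ℂ) * e (((d * m : ℕ) : ℝ) * x) := by
    rw [sum_filter]
    refine sum_congr rfl fun d _ => ?_
    unfold cf
    split_ifs with hd
    · unfold Fs
      rw [sum_mul, sum_filter]
      refine sum_congr rfl fun m _ => ?_
      split_ifs with hm
      · rw [rf_mul g hd hm]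
        push_cast
        rw [show (m : ℝ) * (d * x) = (d : ℝ) * m * x by ring]
        ring
      · rw [rf_froz_zero hm]
        simp
    · simp
  rw [h1, h2, sum_sigma']
  symm
  refine sum_nbij' (fun z : (_ : ℕ) × ℕ => z.1 * z.2) (fun n => ⟨pout A n, pin A n⟩) ?_ ?_ ?_ ?_ ?_
  · rintro ⟨d, m⟩ hz
    rw [mem_sigma, mem_filter, mem_Icc, mem_filter, mem_Icc] at hz
    obtain ⟨⟨⟨h1d, hdR⟩, hd⟩, ⟨⟨h1m, hmR⟩, hm⟩⟩ := hz
    rw [mem_filter, mem_Icc]
    refine ⟨⟨Nat.mul_pos h1d h1m, ?_⟩, (Nat.squarefree_mul (cop hd hm)).2 ⟨hd.1, hm.1⟩⟩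
    rw [mul_comm]
    exact (Nat.le_div_iff_mul_le h1d).1 hmR
  · intro n hn
    rw [mem_filter, mem_Icc] at hn
    obtain ⟨⟨h1n, hnR⟩, hs⟩ := hn
    have hmul := pin_mul_pout A hs
    have hin : 1 ≤ pin A n := Nat.pos_of_ne_zero (sq_pin A n).ne_zero
    have hout : 1 ≤ pout A n := Nat.pos_of_ne_zero (sq_pout A n).ne_zero
    rw [mem_sigma, mem_filter, mem_Icc, mem_filter, mem_Icc]
    refine ⟨⟨⟨hout, ?_⟩, sq_pout A n, fun p hp => ?_⟩, ⟨hin, ?_⟩, sq_pin A n, fun p hp => ?_⟩
    · calc pout A n ≤ pout A n * pin A n := Nat.le_mul_of_pos_right _ hin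
        _ = n := hmul
        _ ≤ R := hnR
    · rw [pf_pout] at hp
      exact (mem_filter.1 hp).2
    · rw [Nat.le_div_iff_mul_le hout, mul_comm, hmul]
      exact hnR
    · rw [pf_pin] at hp
      exact (mem_filter.1 hp).2
  · rintro ⟨d, m⟩ hz
    rw [mem_sigma, mem_filter, mem_filter] at hz
    obtain ⟨⟨_, hd⟩, ⟨_, hm⟩⟩ := hz
    simp only [pout_mul hd hm, pin_mul hd hm]
  · intro n hn
    exact pin_mul_pout A (mem_filter.1 hn).2
  · rintro ⟨d, m⟩ _
    rfl

end Pool.Agent.U322.FZ
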