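import Pool.Agent.U322.FZ
import Pool.Agent.U585.SK.Ph

/-!
# The Moebius function kept on a set of primes: square root cancellation up to the kept part
-/

set_option autoImplicit false

open Finset MeasureTheory Filter Topology

namespace Pool.Agent.U322.FZ

open Pool.Agent.U585.GC (Signs rf PN mem_PN)
open Pool.Agent.U585.SK (rf_le lin_complex exp_diff exp_int)

/-- a bound of order `R ^ α` on the circle -/
def Bd (s : ℕ → ℝ) (α : ℝ) : Prop :=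
  ∃ C : ℝ, ∀ R : ℕ, 1 ≤ R → ∀ x ∈ Set.Icc (0 : ℝ) 1, ‖Fs s R x‖ ≤ C * (R : ℝ) ^ α

lemma norm_e (y : ℝ) : ‖e y‖ = 1 := by
  unfold e
  exact Complex.norm_exp_ofReal_mul_I _

lemma e_diff (x y : ℝ) : ‖e x - e y‖ ≤ 2 * Real.pi * |x - y| := by
  unfold e
  refine (exp_diff _ _).trans (le_of_eq ?_)
  rw [← mul_sub, abs_mul, abs_of_pos Real.two_pi_pos]

lemma e_int (y : ℝ) (z : ℤ) : e (y + z) = e y := by
  unfold e
  rw [mul_add]
  exact exp_int _ z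

lemma Fs_fract (s : ℕ → ℝ) (R : ℕ) (x : ℝ) : Fs s R x = Fs s R (Int.fract x) := by
  unfold Fs
  refine sum_congr rfl fun n _ => ?_
  congr 1
  have : (n : ℝ) * x = n * Int.fract x + ((n * ⌊x⌋ : ℤ) : ℝ) := by
    push_cast
    rw [← mul_add, Int.fract_add_floor]
  rw [this, e_int]

lemma Bd.all {s : ℕ → ℝ} {α : ℝ} (h : Bd s α) : ∃ C : ℝ, 0 < C ∧ ∀ R : ℕ, 1 ≤ R → ∀ x : ℝ,
    ‖Fs s R x‖ ≤ C * (R : ℝ) ^ α := by
  obtain ⟨C, hC⟩ := h
  refine ⟨|C| + 1, by positivity, fun R hR x => ?_⟩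
  rw [Fs_fract]
  refine (hC R hR _ ⟨Int.fract_nonneg x, (Int.fract_lt_one x).le⟩).trans ?_
  refine mul_le_mul_of_nonneg_right ?_ (by positivity)
  linarith [le_abs_self C]

lemma Bd.mono {s : ℕ → ℝ} {α β : ℝ} (h : Bd s α) (hab : α ≤ β) : Bd s β := by
  obtain ⟨C, hC0, hC⟩ := h.all
  refine ⟨C, fun R hR x _ => (hC R hR x).trans ?_⟩
  refine mul_le_mul_of_nonneg_left ?_ hC0.le
  exact Real.rpow_le_rpow_of_exponent_le (by exact_mod_cast hR) hab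

lemma cf_le {A : Set ℕ} {C α : ℝ} (hC0 : 0 < C) (hα : 0 ≤ α)
    (hC : ∀ R : ℕ, 1 ≤ R → ∀ x : ℝ, ‖Fs (froz A) R x‖ ≤ C * (R : ℝ) ^ α) {R d : ℕ} (x : ℝ)
    (hd : d ∈ Icc 1 R) : ‖cf A R x d‖ ≤ C * ((R : ℝ) / d) ^ α := by
  classical
  rw [mem_Icc] at hd
  unfold cf
  split_ifs with h
  · refine (hC (R / d) (Nat.div_pos hd.2 hd.1) _).trans ?_
    refine mul_le_mul_of_nonneg_left ?_ hC0.le
    exact Real.rpow_le_rpow (by positivity) Nat.cast_div_le hα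
  · rw [norm_zero]
    positivity

lemma cf_sum {A : Set ℕ} {C α : ℝ} (hC0 : 0 < C) (hα : 1 / 2 < α)
    (hC : ∀ R : ℕ, 1 ≤ R → ∀ x : ℝ, ‖Fs (froz A) R x‖ ≤ C * (R : ℝ) ^ α) (R : ℕ) (x : ℝ) :
    √(∑ d ∈ Icc 1 R, ‖cf A R x d‖ ^ 2) ≤
      C * √(∑' d : ℕ, 1 / (d : ℝ) ^ (2 * α)) * (R : ℝ) ^ α := by
  have hs : Summable fun d : ℕ => 1 / (d : ℝ) ^ (2 * α) :=
    Real.summable_one_div_nat_rpow.2 (by linarith)
  have h1 : ∑ d ∈ Icc 1 R, ‖cf A R x d‖ ^ 2 ≤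
      (C * (R : ℝ) ^ α) ^ 2 * ∑' d : ℕ, 1 / (d : ℝ) ^ (2 * α) := by
    calc ∑ d ∈ Icc 1 R, ‖cf A R x d‖ ^ 2 ≤
          ∑ d ∈ Icc 1 R, (C * (R : ℝ) ^ α) ^ 2 * (1 / (d : ℝ) ^ (2 * α)) := by
          refine sum_le_sum fun d hd => ?_
          have h2 := cf_le hC0 (by linarith) hC x hd
          have h3 : ‖cf A R x d‖ ^ 2 ≤ (C * ((R : ℝ) / d) ^ α) ^ 2 :=
            pow_le_pow_left₀ (norm_nonneg _) h2 2
          refine h3.trans (le_of_eq ?_)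
          rw [Real.div_rpow (Nat.cast_nonneg _) (Nat.cast_nonneg _), mul_comm 2 α,
            Real.rpow_mul (Nat.cast_nonneg _), Real.rpow_two]
          ring
      _ = (C * (R : ℝ) ^ α) ^ 2 * ∑ d ∈ Icc 1 R, 1 / (d : ℝ) ^ (2 * α) := by rw [mul_sum]
      _ ≤ _ := by
          refine mul_le_mul_of_nonneg_left ?_ (sq_nonneg _)
          exact hs.sum_le_tsum _ fun d _ => by positivity
  calc √(∑ d ∈ Icc 1 R, ‖cf A R x d‖ ^ 2) ≤
        √((C * (R : ℝ) ^ α) ^ 2 * ∑' d : ℕ, 1 / (d : ℝ) ^ (2 * α)) := Real.sqrt_le_sqrt h1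
    _ = _ := by
        rw [Real.sqrt_mul (sq_nonneg _), Real.sqrt_sq (by positivity)]
        ring

lemma mix_val {A : Set ℕ} {g : ℕ → ℝ} (hg : ∀ p, g p = 1 ∨ g p = -1) (p : ℕ) :
    mix A g p = 1 ∨ mix A g p = -1 := by
  unfold mix
  split_ifs
  · exact Or.inr rfl
  · exact hg p

lemma Fs_lip {s : ℕ → ℝ} (hs : ∀ n, |rf s n| ≤ 1) {N : ℕ} (hN : 1 ≤ N) {x y : ℝ}
    (hxy : |x - y| ≤ 1 / (N : ℝ) ^ 2) : ‖Fs s N x - Fs s N y‖ ≤ 2 * Real.pi := by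
  have hN0 : (0 : ℝ) < N := by exact_mod_cast hN
  unfold Fs
  rw [← sum_sub_distrib]
  refine (norm_sum_le _ _).trans ?_
  calc ∑ n ∈ Icc 1 N, ‖((rf s n : ℝ) : ℂ) * e (n * x) - ((rf s n : ℝ) : ℂ) * e (n * y)‖
      ≤ ∑ _n ∈ Icc 1 N, 2 * Real.pi / N := by
        refine sum_le_sum fun n hn => ?_
        rw [mem_Icc] at hn
        rw [← mul_sub, norm_mul, Complex.norm_real, Real.norm_eq_abs]
        have h1 : ‖e (n * x) - e (n * y)‖ ≤ 2 * Real.pi / N := by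
          refine (e_diff _ _).trans ?_
          rw [← mul_sub, abs_mul, Nat.abs_cast]
          have h2 : (n : ℝ) * |x - y| ≤ N * (1 / (N : ℝ) ^ 2) :=
            mul_le_mul (by exact_mod_cast hn.2) hxy (abs_nonneg _) hN0.le
          have h3 : (N : ℝ) * (1 / (N : ℝ) ^ 2) = 1 / N := by field_simp
          rw [h3] at h2
          calc 2 * Real.pi * (n * |x - y|) ≤ 2 * Real.pi * (1 / N) :=
                mul_le_mul_of_nonneg_left h2 Real.two_pi_pos.le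
            _ = _ := by ring
        calc |rf s n| * ‖e (n * x) - e (n * y)‖ ≤ 1 * (2 * Real.pi / N) :=
              mul_le_mul (hs n) h1 (norm_nonneg _) zero_le_one
          _ = _ := one_mul _
    _ = 2 * Real.pi := by
        rw [sum_const, Nat.card_Icc, Nat.add_sub_cancel, nsmul_eq_mul]
        field_simp

variable {Ω : Type} [mΩ : MeasurableSpace Ω] {P : Measure Ω} [IsProbabilityMeasure P]
  {f : ℕ → Ω → ℝ}

/-- almost surely the exponent of the kept part is not exceeded -/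
theorem main (h : Signs P f) (A : Set ℕ) {α : ℝ} (hα : 1 / 2 < α) (hB : Bd (froz A) α) :
    ∀ᵐ ω ∂P, ∀ ε : ℝ, 0 < ε → Bd (mix A fun p => f p ω) (α + ε) := by
  classical
  obtain ⟨C, hC0, hC⟩ := hB.all
  have hlin := lin_complex h (fun N => (range (N ^ 2 + 1)).image fun j : ℕ =>
    cf A N ((j : ℝ) / (N : ℝ) ^ 2)) 2 2 (fun N hN => by
      have h1 : ((range (N ^ 2 + 1)).image fun j : ℕ => cf A N ((j : ℝ) / (N : ℝ) ^ 2)).card ≤
          N ^ 2 + 1 := card_image_le.trans (by rw [card_range])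
      have h2 : N ^ 2 + 1 ≤ 2 * N ^ 2 := by nlinarith
      exact_mod_cast h1.trans h2)
  filter_upwards [hlin] with ω hω ε hε
  obtain ⟨C₁, hC₁, h1⟩ := hω ε hε
  refine ⟨C₁ * (C * √(∑' d : ℕ, 1 / (d : ℝ) ^ (2 * α))) + 2 * Real.pi, fun N hN x hx => ?_⟩
  have hN1 : (1 : ℝ) ≤ N := by exact_mod_cast hN
  have hN0 : (0 : ℝ) < N := by linarith
  set j : ℕ := ⌊x * (N : ℝ) ^ 2⌋₊ with hj
  have hx0 : 0 ≤ x * (N : ℝ) ^ 2 := mul_nonneg hx.1 (by positivity)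
  have hj1 : (j : ℝ) ≤ x * (N : ℝ) ^ 2 := Nat.floor_le hx0
  have hj2 : x * (N : ℝ) ^ 2 < j + 1 := Nat.lt_floor_add_one _
  have hjN : j ≤ N ^ 2 := by
    have : (j : ℝ) ≤ (N : ℝ) ^ 2 := hj1.trans (mul_le_of_le_one_left (by positivity) hx.2)
    exact_mod_cast this
  have hdist : |x - (j : ℝ) / (N : ℝ) ^ 2| ≤ 1 / (N : ℝ) ^ 2 := by
    have h2 : x - (j : ℝ) / (N : ℝ) ^ 2 = (x * (N : ℝ) ^ 2 - j) / (N : ℝ) ^ 2 := by
      field_simp
    rw [h2, abs_div, abs_of_pos (show (0 : ℝ) < (N : ℝ) ^ 2 by positivity)]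
    refine div_le_div_of_nonneg_right ?_ (by positivity)
    rw [abs_le]
    constructor <;> linarith
  have h3 : ‖Fs (mix A fun p => f p ω) N ((j : ℝ) / (N : ℝ) ^ 2)‖ ≤
      C₁ * (C * √(∑' d : ℕ, 1 / (d : ℝ) ^ (2 * α))) * (N : ℝ) ^ (α + ε) := by
    rw [decomp]
    have h4 := h1 N hN _ (mem_image_of_mem _ (mem_range.2 (Nat.lt_succ_of_le hjN)))
    refine h4.trans ?_
    have h5 := cf_sum hC0 hα hC N ((j : ℝ) / (N : ℝ) ^ 2)
    calc C₁ * (N : ℝ) ^ ε * √(∑ n ∈ Icc 1 N, ‖cf A N ((j : ℝ) / (N : ℝ) ^ 2) n‖ ^ 2) ≤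
          C₁ * (N : ℝ) ^ ε * (C * √(∑' d : ℕ, 1 / (d : ℝ) ^ (2 * α)) * (N : ℝ) ^ α) :=
          mul_le_mul_of_nonneg_left h5 (by positivity)
      _ = _ := by
          rw [Real.rpow_add hN0]
          ring
  have h4 := Fs_lip (fun n => rf_le (mix_val (A := A) fun p => h.val p ω) n) hN hdist
  have h5 : (1 : ℝ) ≤ (N : ℝ) ^ (α + ε) := Real.one_le_rpow hN1 (by linarith)
  have h6 : ‖Fs (mix A fun p => f p ω) N x‖ ≤ ‖Fs (mix A fun p => f p ω) N ((j : ℝ) / (N : ℝ) ^ 2)‖ +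
      ‖Fs (mix A fun p => f p ω) N x - Fs (mix A fun p => f p ω) N ((j : ℝ) / (N : ℝ) ^ 2)‖ := by
    have := norm_add_le (Fs (mix A fun p => f p ω) N ((j : ℝ) / (N : ℝ) ^ 2))
      (Fs (mix A fun p => f p ω) N x - Fs (mix A fun p => f p ω) N ((j : ℝ) / (N : ℝ) ^ 2))
    rwa [add_sub_cancel] at this
  have h7 : 2 * Real.pi ≤ 2 * Real.pi * (N : ℝ) ^ (α + ε) := le_mul_of_one_le_right Real.two_pi_pos.le h5
  rw [add_mul]
  linarith

end Pool.Agent.U322.FZ
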