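import Pool.Agent.U322.FZ2

/-!
# The Moebius function kept on a set of primes: growth exponents
-/

set_option autoImplicit false

open Finset MeasureTheory Filter Topology ProbabilityTheory

namespace Pool.Agent.U322.FZ

open Pool.Agent.U585.GC (Signs rf PN mem_PN rf_zero)
open Pool.Agent.U585.SK (rf_le lin_complex exp_diff exp_int large rf_sq sqf_window)

/-- the growth exponent -/
noncomputable def gexp (s : ℕ → ℝ) : ℝ := sInf {α : ℝ | 0 ≤ α ∧ Bd s α}

lemma bdd (s : ℕ → ℝ) : BddBelow {α : ℝ | 0 ≤ α ∧ Bd s α} := ⟨0, fun _ h => h.1⟩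

lemma bd_one {s : ℕ → ℝ} (hs : ∀ n, |rf s n| ≤ 1) : Bd s 1 := by
  refine ⟨1, fun R _ x _ => ?_⟩
  unfold Fs
  refine (norm_sum_le _ _).trans ?_
  calc ∑ n ∈ Icc 1 R, ‖((rf s n : ℝ) : ℂ) * e (n * x)‖ ≤ ∑ _n ∈ Icc 1 R, (1 : ℝ) := by
        refine sum_le_sum fun n _ => ?_
        rw [norm_mul, norm_e, mul_one, Complex.norm_real, Real.norm_eq_abs]
        exact hs n
    _ = _ := by simp

lemma froz_le (A : Set ℕ) (n : ℕ) : |rf (froz A) n| ≤ 1 := by
  classical
  unfold rf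
  split_ifs
  · rw [abs_prod]
    refine prod_le_one (fun _ _ => abs_nonneg _) fun p _ => ?_
    unfold froz
    split_ifs <;> simp
  · simp

variable {Ω : Type} [mΩ : MeasurableSpace Ω] {P : Measure Ω} [IsProbabilityMeasure P]
  {f : ℕ → Ω → ℝ}

lemma bd_of_gexp {s : ℕ → ℝ} (hs : ∀ n, |rf s n| ≤ 1) {β : ℝ} (h : gexp s < β) : Bd s β := by
  have hne : {α : ℝ | 0 ≤ α ∧ Bd s α}.Nonempty := ⟨1, zero_le_one, bd_one hs⟩
  obtain ⟨γ, hγ, hγβ⟩ := (csInf_lt_iff (bdd s) hne).1 h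
  exact hγ.2.mono hγβ.le

/-- almost surely the exponent is at most that of the kept part, or one half -/
theorem gexp_le (h : Signs P f) (A : Set ℕ) :
    ∀ᵐ ω ∂P, gexp (mix A fun p => f p ω) ≤ max (1 / 2) (gexp (froz A)) := by
  have h1 : ∀ᵐ ω ∂P, ∀ j : ℕ, ∀ ε : ℝ, 0 < ε →
      Bd (mix A fun p => f p ω) (max (1 / 2) (gexp (froz A)) + 1 / ((j : ℝ) + 1) + ε) := by
    refine ae_all_iff.2 fun j => ?_
    have hj : (0 : ℝ) < 1 / ((j : ℝ) + 1) := by positivity
    refine main h A ?_ ?_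
    · linarith [le_max_left (1 / 2 : ℝ) (gexp (froz A))]
    · exact bd_of_gexp (froz_le A) (by linarith [le_max_right (1 / 2 : ℝ) (gexp (froz A))])
  filter_upwards [h1] with ω hω
  refine le_of_forall_pos_le_add fun δ hδ => ?_
  obtain ⟨j, hj⟩ := exists_nat_gt (2 / δ)
  have hj' : 1 / ((j : ℝ) + 1) ≤ δ / 2 := by
    rw [div_lt_iff₀ hδ] at hj
    rw [div_le_iff₀ (by positivity)]
    nlinarith
  refine (csInf_le (bdd _) ⟨?_, hω j (δ / 2) (by linarith)⟩).trans (by linarith)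
  have h2 : (0 : ℝ) < 1 / ((j : ℝ) + 1) := by positivity
  linarith [le_max_left (1 / 2 : ℝ) (gexp (froz A))]

/-- the exponent is at least one half -/
theorem half_le {s : ℕ → ℝ} (hs : ∀ p, s p = 1 ∨ s p = -1) : 1 / 2 ≤ gexp s := by
  classical
  refine le_csInf ⟨1, zero_le_one, bd_one fun n => rf_le hs n⟩ ?_
  rintro α ⟨hα0, hB⟩
  obtain ⟨C, hC0, hC⟩ := hB.all
  by_contra hlt
  rw [not_le] at hlt
  obtain ⟨N₀, hN₀⟩ := sqf_window (1 / 2) (by norm_num) le_rfl
  have ht : Tendsto (fun R : ℕ => (R : ℝ) ^ (1 - 2 * α)) atTop atTop :=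
    (tendsto_rpow_atTop (by linarith)).comp tendsto_natCast_atTop_atTop
  obtain ⟨R, hR1, hR2⟩ := ((ht.eventually_gt_atTop (2 * C ^ 2)).and
    (eventually_ge_atTop (max N₀ 1))).exists
  have hR3 : 1 ≤ R := (le_max_right _ _).trans hR2
  have hR0 : (0 : ℝ) < R := by exact_mod_cast hR3
  have h1 := hN₀ 0 R ((le_max_left _ _).trans hR2) (Nat.zero_le _) (by
    rw [show (1 / 2 + 1 / 2 : ℝ) = 1 by norm_num, Real.rpow_one]
    simp)
  obtain ⟨j, hj, h2⟩ := large (rf s) 0 R hR3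
  rw [Nat.zero_add] at h2
  have hI : Ioc 0 R = Icc 1 R := by
    ext n
    rw [mem_Ioc, mem_Icc]
    omega
  have h3 : ((R : ℝ) - (0 : ℕ)) / 2 ≤ ∑ n ∈ Ioc 0 R, rf s n ^ 2 := by
    refine h1.trans (le_of_eq ?_)
    rw [card_filter]
    push_cast
    exact sum_congr rfl fun n _ => (rf_sq hs n).symm
  have h4 : ∑ n ∈ Ioc 0 R, ((rf s n : ℝ) : ℂ) *
      Complex.exp (2 * Real.pi * Complex.I * n * ((j : ℝ) / R : ℝ)) = Fs s R ((j : ℝ) / R) := by
    unfold Fs
    rw [hI]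
    refine sum_congr rfl fun n _ => ?_
    congr 1
    unfold e
    congr 1
    push_cast
    ring
  rw [h4] at h2
  have h5 := hC R hR3 ((j : ℝ) / R)
  have h6 : ‖Fs s R ((j : ℝ) / R)‖ ^ 2 ≤ (C * (R : ℝ) ^ α) ^ 2 :=
    pow_le_pow_left₀ (norm_nonneg _) h5 2
  have h7 : (C * (R : ℝ) ^ α) ^ 2 = C ^ 2 * (R : ℝ) ^ (2 * α) := by
    rw [mul_pow, mul_comm 2 α, Real.rpow_mul hR0.le, Real.rpow_two]
  have h8 : (R : ℝ) = (R : ℝ) ^ (1 - 2 * α) * (R : ℝ) ^ (2 * α) := by
    rw [← Real.rpow_add hR0, show 1 - 2 * α + 2 * α = (1 : ℝ) by ring, Real.rpow_one]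
  have h9 : (0 : ℝ) < (R : ℝ) ^ (2 * α) := by positivity
  have h10 : (R : ℝ) / 2 ≤ C ^ 2 * (R : ℝ) ^ (2 * α) := by
    have := h3.trans (h2.trans (h6.trans h7.le))
    simpa using this
  nlinarith

open Classical in
/-- sums of reciprocals over a set of primes and the integers composed of them -/
lemma euler {A : Set ℕ} {α : ℝ} (hs : Summable (A.indicator fun p : ℕ => (p : ℝ) ^ (-α)))
    (R : ℕ) : ∑ n ∈ (Icc 1 R).filter (fun n => In A n), (n : ℝ) ^ (-α) ≤
      Real.exp (∑' p, A.indicator (fun p : ℕ => (p : ℝ) ^ (-α)) p) := by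
  classical
  have h1 : ∑ n ∈ (Icc 1 R).filter (fun n => In A n), (n : ℝ) ^ (-α) =
      ∑ n ∈ (Icc 1 R).filter (fun n => In A n), ∏ p ∈ n.primeFactors, (p : ℝ) ^ (-α) := by
    refine sum_congr rfl fun n hn => ?_
    rw [mem_filter] at hn
    rw [Real.finset_prod_rpow _ _ fun p _ => Nat.cast_nonneg p]
    rw [← Nat.cast_prod, Nat.prod_primeFactors_of_squarefree hn.2.1]
  have hinj : Set.InjOn Nat.primeFactors ((Icc 1 R).filter (fun n => In A n) : Finset ℕ) := by
    intro m hm n hn hmn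
    have hm' := (mem_filter.1 (mem_coe.1 hm)).2.1
    have hn' := (mem_filter.1 (mem_coe.1 hn)).2.1
    rw [← Nat.prod_primeFactors_of_squarefree hm', hmn, Nat.prod_primeFactors_of_squarefree hn']
  have h2 : ∑ n ∈ (Icc 1 R).filter (fun n => In A n), ∏ p ∈ n.primeFactors, (p : ℝ) ^ (-α) ≤
      ∑ U ∈ ((PN R).filter (· ∈ A)).powerset, ∏ p ∈ U, (p : ℝ) ^ (-α) := by
    rw [← sum_image (f := fun U : Finset ℕ => ∏ p ∈ U, (p : ℝ) ^ (-α)) (g := Nat.primeFactors)
      hinj]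
    refine sum_le_sum_of_subset_of_nonneg ?_ fun U _ _ => prod_nonneg fun p _ => by positivity
    intro U hU
    rw [mem_image] at hU
    obtain ⟨n, hn, rfl⟩ := hU
    rw [mem_filter, mem_Icc] at hn
    rw [mem_powerset]
    intro p hp
    rw [mem_filter, mem_PN]
    have h3 := Nat.mem_primeFactors.1 hp
    exact ⟨⟨h3.1, (Nat.le_of_dvd (by omega) h3.2.1).trans hn.1.2⟩, hn.2.2 p hp⟩
  rw [h1]
  refine h2.trans ?_
  rw [← prod_one_add]
  have h3 : ∏ p ∈ (PN R).filter (· ∈ A), (1 + (p : ℝ) ^ (-α)) ≤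
      ∏ p ∈ (PN R).filter (· ∈ A), Real.exp ((p : ℝ) ^ (-α)) := by
    refine prod_le_prod (fun p _ => by positivity) fun p _ => ?_
    rw [add_comm]
    exact Real.add_one_le_exp _
  refine h3.trans ?_
  rw [← Real.exp_sum]
  refine Real.exp_le_exp.2 ?_
  have h4 : ∑ p ∈ (PN R).filter (· ∈ A), (p : ℝ) ^ (-α) =
      ∑ p ∈ (PN R).filter (· ∈ A), A.indicator (fun p : ℕ => (p : ℝ) ^ (-α)) p := by
    refine sum_congr rfl fun p hp => ?_
    rw [Set.indicator_of_mem (mem_filter.1 hp).2]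
  rw [h4]
  refine hs.sum_le_tsum _ fun p _ => ?_
  refine Set.indicator_nonneg (fun p _ => ?_) p
  positivity

/-- sparse sets -/
theorem sparse {A : Set ℕ} (hs : ∀ σ : ℝ, 1 / 2 < σ →
    Summable (A.indicator fun p : ℕ => (p : ℝ) ^ (-σ))) : gexp (froz A) ≤ 1 / 2 := by
  classical
  refine le_of_forall_pos_le_add fun δ hδ => ?_
  refine csInf_le (bdd _) ⟨by linarith, ?_⟩
  set α := 1 / 2 + δ with hα
  have hα0 : 0 < α := by linarith
  refine ⟨Real.exp (∑' p, A.indicator (fun p : ℕ => (p : ℝ) ^ (-α)) p), fun R hR x _ => ?_⟩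
  have hR0 : (0 : ℝ) < R := by exact_mod_cast hR
  have h1 : ‖Fs (froz A) R x‖ ≤ ∑ n ∈ (Icc 1 R).filter (fun n => In A n), (1 : ℝ) := by
    unfold Fs
    refine (norm_sum_le _ _).trans ?_
    rw [sum_filter]
    refine sum_le_sum fun n _ => ?_
    rw [norm_mul, norm_e, mul_one, Complex.norm_real, Real.norm_eq_abs]
    split_ifs with h
    · exact froz_le A n
    · rw [rf_froz_zero h, abs_zero]
  have h2 : ∑ n ∈ (Icc 1 R).filter (fun n => In A n), (1 : ℝ) ≤
      (R : ℝ) ^ α * ∑ n ∈ (Icc 1 R).filter (fun n => In A n), (n : ℝ) ^ (-α) := by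
    rw [mul_sum]
    refine sum_le_sum fun n hn => ?_
    rw [mem_filter, mem_Icc] at hn
    have hn0 : (0 : ℝ) < n := by exact_mod_cast hn.1.1
    have h3 : (n : ℝ) ^ α ≤ (R : ℝ) ^ α :=
      Real.rpow_le_rpow hn0.le (by exact_mod_cast hn.1.2) hα0.le
    have h4 : (n : ℝ) ^ α * (n : ℝ) ^ (-α) = 1 := by
      rw [← Real.rpow_add hn0, add_neg_cancel, Real.rpow_zero]
    calc (1 : ℝ) = (n : ℝ) ^ α * (n : ℝ) ^ (-α) := h4.symm
      _ ≤ _ := mul_le_mul_of_nonneg_right h3 (by positivity)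
  have h3 := euler (hs α (by linarith)) R
  refine h1.trans (h2.trans ?_)
  rw [mul_comm]
  exact mul_le_mul_of_nonneg_right h3 (by positivity)

/-! ### the mean value -/

lemma int_prod (h : Signs P f) {U : Finset ℕ} (hU : U.Nonempty) :
    ∫ ω, ∏ p ∈ U, f p ω ∂P = 0 := by
  have h1 : ∀ ω, ∏ p ∈ U, f p ω = ∏ p : U, f p ω := fun ω =>
    (prod_coe_sort U fun p => f p ω).symm
  simp_rw [h1]
  have hi : iIndepFun (fun p : U => f (p : ℕ)) P := h.indep.precomp Subtype.val_injective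
  have h2 := hi.integral_fun_prod_eq_prod_integral fun p => (h.meas p).aestronglyMeasurable
  rw [h2]
  obtain ⟨p, hp⟩ := hU
  exact prod_eq_zero (mem_univ (⟨p, hp⟩ : U)) (h.mean p)

lemma int_rf (h : Signs P f) {d : ℕ} (hd : d ≠ 1) : ∫ ω, rf (fun p => f p ω) d ∂P = 0 := by
  classical
  unfold rf
  by_cases hs : Squarefree d
  · simp only [if_pos hs]
    refine int_prod h ?_
    rw [Nat.nonempty_primeFactors]
    have := hs.ne_zero
    omega
  · simp only [if_neg hs, integral_zero]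

lemma rf_meas (h : Signs P f) (d : ℕ) : Measurable fun ω => rf (fun p => f p ω) d := by
  classical
  unfold rf
  split_ifs
  · exact Finset.measurable_prod _ fun p _ => h.meas p
  · exact measurable_const

/-- the mean value of the modulus is at least the modulus of the kept part -/
theorem mean_ge (h : Signs P f) (A : Set ℕ) {R : ℕ} (hR : 1 ≤ R) (x : ℝ) :
    ‖Fs (froz A) R x‖ ≤ ∫ ω, ‖Fs (mix A fun p => f p ω) R x‖ ∂P := by
  classical
  have hint : ∀ d : ℕ, Integrable (fun ω => ((rf (fun p => f p ω) d : ℝ) : ℂ)) P := by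
    intro d
    refine Integrable.of_bound (C := 1)
      (Complex.measurable_ofReal.comp (rf_meas h d)).aestronglyMeasurable
      (Eventually.of_forall fun ω => ?_)
    rw [Complex.norm_real, Real.norm_eq_abs]
    exact rf_le (fun p => h.val p ω) d
  have h1 : ∫ ω, Fs (mix A fun p => f p ω) R x ∂P = Fs (froz A) R x := by
    simp_rw [decomp]
    rw [integral_finset_sum _ fun d _ => (hint d).const_mul _]
    have h2 : ∀ d ∈ Icc 1 R, ∫ ω, cf A R x d * ((rf (fun p => f p ω) d : ℝ) : ℂ) ∂P =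
        if d = 1 then Fs (froz A) R x else 0 := by
      intro d _
      rw [integral_const_mul, integral_complex_ofReal]
      split_ifs with hd
      · subst hd
        have h3 : ∀ ω, rf (fun p => f p ω) 1 = 1 := by
          intro ω
          unfold rf
          rw [if_pos squarefree_one]
          simp
        have h4 : Out A 1 := ⟨squarefree_one, by simp⟩
        unfold cf
        rw [if_pos h4]
        simp [h3]
      · rw [int_rf h hd]
        simp
    rw [sum_congr rfl h2, sum_ite_eq' (Icc 1 R) 1, if_pos (mem_Icc.2 ⟨le_rfl, hR⟩)]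
  rw [← h1]
  exact norm_integral_le_integral_norm _

end Pool.Agent.U322.FZ
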