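import Pool.Agent.U322.FZ3

/-!
# Changing one sign: the ratio of the maximal functions
-/

set_option autoImplicit false

open Finset MeasureTheory Filter Topology ProbabilityTheory

namespace Pool.Agent.U322.FZ

open Pool.Agent.U585.GC (Signs rf PN mem_PN rf_zero Dep mS mS_le dep_meas indep_int indep_mS)
open Pool.Agent.U585.SK (rf_le)

/-- splitting off a prime, for the coefficients -/
lemma rf_peel (s : ℕ → ℝ) {p : ℕ} (hp : p.Prime) {n : ℕ} (hn : 1 ≤ n) :
    rf s n = rf (Function.update s p 0) n +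
      (if p ∣ n then s p * rf (Function.update s p 0) (n / p) else 0) := by
  classical
  have hz : ∀ m : ℕ, 1 ≤ m → p ∣ m → rf (Function.update s p 0) m = 0 := by
    intro m hm hpm
    unfold rf
    split_ifs with hs
    · refine prod_eq_zero (Nat.mem_primeFactors.2 ⟨hp, hpm, by omega⟩) ?_
      simp
    · rfl
  by_cases hpn : p ∣ n
  · rw [if_pos hpn, hz n hn hpn, zero_add]
    obtain ⟨m, rfl⟩ := hpn
    have hm : 1 ≤ m := by
      rcases Nat.eq_zero_or_pos m with h | h
      · rw [h] at hn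
        omega
      · exact h
    rw [Nat.mul_div_cancel_left m hp.pos]
    by_cases hpm : p ∣ m
    · rw [hz m hm hpm, mul_zero]
      unfold rf
      rw [if_neg]
      intro hs
      obtain ⟨k, rfl⟩ := hpm
      have := hs p ⟨k, by ring⟩
      exact hp.one_lt.ne' (Nat.isUnit_iff.1 this)
    · have hc : Nat.Coprime p m := (Nat.Prime.coprime_iff_not_dvd hp).2 hpm
      unfold rf
      by_cases hs : Squarefree m
      · have hs' : Squarefree (p * m) := (Nat.squarefree_mul hc).2 ⟨hp.squarefree, hs⟩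
        rw [if_pos hs', if_pos hs, hc.primeFactors_mul, hp.primeFactors,
          prod_union (by
            rw [Finset.disjoint_left]
            intro q hq hqm
            rw [mem_singleton] at hq
            subst hq
            exact hpm (Nat.dvd_of_mem_primeFactors hqm)), prod_singleton]
        congr 1
        refine prod_congr rfl fun q hq => ?_
        rw [Function.update_of_ne]
        rintro rfl
        exact hpm (Nat.dvd_of_mem_primeFactors hq)
      · have hs' : ¬ Squarefree (p * m) := fun h => hs ((Nat.squarefree_mul hc).1 h).2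
        rw [if_neg hs', if_neg hs, mul_zero]
  · rw [if_neg hpn, add_zero]
    unfold rf
    split_ifs with hs
    · refine prod_congr rfl fun q hq => ?_
      rw [Function.update_of_ne]
      rintro rfl
      exact hpn (Nat.dvd_of_mem_primeFactors hq)
    · rfl

/-- splitting off a prime -/
lemma peel (s : ℕ → ℝ) {p : ℕ} (hp : p.Prime) (R : ℕ) (x : ℝ) :
    Fs s R x = Fs (Function.update s p 0) R x +
      (s p : ℂ) * Fs (Function.update s p 0) (R / p) (p * x) := by
  classical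
  have h1 : ∑ n ∈ Icc 1 R, (((if p ∣ n then s p * rf (Function.update s p 0) (n / p) else 0 : ℝ)) : ℂ) *
      e (n * x) = (s p : ℂ) * Fs (Function.update s p 0) (R / p) (p * x) := by
    have h2 : ∑ n ∈ Icc 1 R, (((if p ∣ n then s p * rf (Function.update s p 0) (n / p) else 0 : ℝ)) : ℂ) *
        e (n * x) = ∑ n ∈ (Icc 1 R).filter (p ∣ ·),
          ((s p * rf (Function.update s p 0) (n / p) : ℝ) : ℂ) * e (n * x) := by
      rw [sum_filter]
      refine sum_congr rfl fun n _ => ?_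
      split_ifs <;> simp
    rw [h2]
    unfold Fs
    rw [mul_sum]
    refine sum_nbij' (fun n => n / p) (fun m => p * m) ?_ ?_ ?_ ?_ ?_
    · intro n hn
      rw [mem_filter, mem_Icc] at hn
      rw [mem_Icc]
      refine ⟨?_, Nat.div_le_div_right hn.1.2⟩
      exact Nat.div_pos (Nat.le_of_dvd (by omega) hn.2) hp.pos
    · intro m hm
      rw [mem_Icc] at hm
      rw [mem_filter, mem_Icc]
      refine ⟨⟨Nat.mul_pos hp.pos hm.1, ?_⟩, dvd_mul_right _ _⟩
      rw [mul_comm]
      exact (Nat.le_div_iff_mul_le hp.pos).1 hm.2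
    · intro n hn
      rw [mem_filter] at hn
      exact Nat.mul_div_cancel' hn.2
    · intro m _
      exact Nat.mul_div_cancel_left m hp.pos
    · intro n hn
      rw [mem_filter] at hn
      have h3 : (n : ℝ) * x = ((n / p : ℕ) : ℝ) * (p * x) := by
        obtain ⟨m, rfl⟩ := hn.2
        rw [Nat.mul_div_cancel_left m hp.pos]
        push_cast
        ring
      rw [h3]
      push_cast
      ring
  rw [← h1]
  unfold Fs
  rw [← sum_add_distrib]
  refine sum_congr rfl fun n hn => ?_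
  rw [mem_Icc] at hn
  conv_lhs => rw [rf_peel s hp hn.1]
  push_cast
  ring

/-- the maximal function -/
noncomputable def MF (α : ℝ) (N : ℕ) (s : ℕ → ℝ) : ℝ :=
  ⨆ i : Fin N × ℚ, ‖Fs s (i.1 + 1) (i.2 : ℝ)‖ / ((i.1 + 1 : ℕ) : ℝ) ^ α

lemma MF_bdd {α : ℝ} (hα : 0 ≤ α) (N : ℕ) (s : ℕ → ℝ) :
    BddAbove (Set.range fun i : Fin N × ℚ => ‖Fs s (i.1 + 1) (i.2 : ℝ)‖ / ((i.1 + 1 : ℕ) : ℝ) ^ α) := by
  refine ⟨∑ n ∈ Icc 1 N, |rf s n|, ?_⟩
  rintro _ ⟨i, rfl⟩
  have h1 : (1 : ℝ) ≤ ((i.1 + 1 : ℕ) : ℝ) ^ α :=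
    Real.one_le_rpow (by exact_mod_cast Nat.le_add_left 1 _) hα
  have h2 : ‖Fs s (i.1 + 1) (i.2 : ℝ)‖ ≤ ∑ n ∈ Icc 1 N, |rf s n| := by
    unfold Fs
    refine (norm_sum_le _ _).trans ?_
    calc ∑ n ∈ Icc 1 ((i.1 : ℕ) + 1), ‖((rf s n : ℝ) : ℂ) * e (n * (i.2 : ℝ))‖ =
          ∑ n ∈ Icc 1 ((i.1 : ℕ) + 1), |rf s n| := by
          refine sum_congr rfl fun n _ => ?_
          rw [norm_mul, norm_e, mul_one, Complex.norm_real, Real.norm_eq_abs]
      _ ≤ _ := by
          refine sum_le_sum_of_subset_of_nonneg ?_ fun _ _ _ => abs_nonneg _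
          refine Icc_subset_Icc_right ?_
          have := i.1.2
          omega
  exact (div_le_self (norm_nonneg _) h1).trans h2

lemma le_MF {α : ℝ} (hα : 0 ≤ α) {N R : ℕ} (hR : 1 ≤ R) (hRN : R ≤ N) (s : ℕ → ℝ) (x : ℚ) :
    ‖Fs s R x‖ ≤ MF α N s * (R : ℝ) ^ α := by
  have hR0 : (0 : ℝ) < (R : ℝ) ^ α := by
    have : (0 : ℝ) < R := by exact_mod_cast hR
    positivity
  have h1 := le_ciSup (MF_bdd hα N s) (⟨⟨R - 1, by omega⟩, x⟩ : Fin N × ℚ)
  simp only [Nat.sub_add_cancel hR] at h1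
  exact (div_le_iff₀ hR0).1 h1

lemma MF_le {α : ℝ} {N : ℕ} (hN : 1 ≤ N) {s : ℕ → ℝ} {B : ℝ}
    (h : ∀ R : ℕ, 1 ≤ R → R ≤ N → ∀ x : ℚ, ‖Fs s R x‖ ≤ B * (R : ℝ) ^ α) : MF α N s ≤ B := by
  have : Nonempty (Fin N × ℚ) := ⟨⟨⟨0, by omega⟩, 0⟩⟩
  refine ciSup_le fun i => ?_
  have hR0 : (0 : ℝ) < ((i.1 + 1 : ℕ) : ℝ) ^ α := by positivity
  rw [div_le_iff₀ hR0]
  have h2 := i.1.2
  exact h _ (by omega) (by omega) i.2

lemma one_le_MF {α : ℝ} (hα : 0 ≤ α) {N : ℕ} (hN : 1 ≤ N) (s : ℕ → ℝ) : 1 ≤ MF α N s := by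
  have h1 := le_MF hα le_rfl hN s 0
  have h2 : ‖Fs s 1 ((0 : ℚ) : ℝ)‖ = 1 := by
    unfold Fs
    have h3 : rf s 1 = 1 := by
      unfold rf
      rw [if_pos squarefree_one]
      simp
    rw [Icc_self, sum_singleton, norm_mul, norm_e, mul_one, h3]
    simp
  rw [h2, Nat.cast_one, Real.one_rpow, mul_one] at h1
  exact h1

lemma MF_meas (α : ℝ) (N : ℕ) : Measurable (MF α N) := by
  unfold MF
  refine Measurable.iSup fun i => ?_
  refine Measurable.div_const ?_ _
  refine Measurable.norm ?_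
  unfold Fs
  refine Finset.measurable_sum _ fun n _ => ?_
  refine Measurable.mul_const ?_ _
  refine Complex.measurable_ofReal.comp ?_
  unfold rf
  split_ifs
  · exact Finset.measurable_prod _ fun p _ => measurable_pi_apply p
  · exact measurable_const

/-- the function without the prime `p` -/
lemma zero_bound {α : ℝ} (hα : 0 < α) {N : ℕ} {p : ℕ} (hp : p.Prime) (s : ℕ → ℝ) {w : ℝ}
    (hw : |w| = 1) : ∀ R : ℕ, R ≤ N → ∀ x : ℚ, ‖Fs (Function.update s p 0) R x‖ ≤
      MF α N (Function.update s p w) * (R : ℝ) ^ α / (1 - (p : ℝ) ^ (-α)) := by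
  have hp1 : (1 : ℝ) < p := by exact_mod_cast hp.one_lt
  have hp0 : (0 : ℝ) < p := by linarith
  have ht1 : (p : ℝ) ^ (-α) < 1 := Real.rpow_lt_one_of_one_lt_of_neg hp1 (by linarith)
  have ht0 : 0 < (p : ℝ) ^ (-α) := by positivity
  intro R
  induction R using Nat.strong_induction_on with
  | _ R ih =>
    intro hRN x
    rcases Nat.eq_zero_or_pos R with h0 | h0
    · subst h0
      have h1 : Fs (Function.update s p 0) 0 (x : ℝ) = 0 := by
        unfold Fs
        simp
      rw [h1, norm_zero, Nat.cast_zero, Real.zero_rpow hα.ne', mul_zero, zero_div]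
    · have hR0 : (0 : ℝ) < R := by exact_mod_cast h0
      have hN1 : 1 ≤ N := by omega
      have hM : 0 ≤ MF α N (Function.update s p w) := by
        linarith [one_le_MF hα.le hN1 (Function.update s p w)]
      have h1 := peel (Function.update s p w) hp R x
      rw [Function.update_idem, Function.update_self] at h1
      have h2 : ‖Fs (Function.update s p 0) R (x : ℝ)‖ ≤ ‖Fs (Function.update s p w) R (x : ℝ)‖ +
          ‖Fs (Function.update s p 0) (R / p) (p * (x : ℝ))‖ := by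
        have h3 : Fs (Function.update s p 0) R (x : ℝ) = Fs (Function.update s p w) R (x : ℝ) -
            (w : ℂ) * Fs (Function.update s p 0) (R / p) (p * (x : ℝ)) := by
          rw [h1]
          ring
        rw [h3]
        refine (norm_sub_le _ _).trans (le_of_eq ?_)
        rw [norm_mul, Complex.norm_real, Real.norm_eq_abs, hw, one_mul]
      have h4 := ih (R / p) (Nat.div_lt_self h0 hp.one_lt) ((Nat.div_le_self _ _).trans hRN)
        ((p : ℚ) * x)
      push_cast at h4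
      have h5 : (((R / p : ℕ) : ℝ)) ^ α ≤ (R : ℝ) ^ α * (p : ℝ) ^ (-α) := by
        have h6 : (((R / p : ℕ) : ℝ)) ^ α ≤ ((R : ℝ) / p) ^ α :=
          Real.rpow_le_rpow (Nat.cast_nonneg _) Nat.cast_div_le hα.le
        refine h6.trans (le_of_eq ?_)
        rw [Real.div_rpow hR0.le hp0.le, Real.rpow_neg hp0.le, div_eq_mul_inv]
      have h7 := le_MF hα.le h0 hRN (Function.update s p w) x
      have h8 : MF α N (Function.update s p w) * (((R / p : ℕ) : ℝ)) ^ α / (1 - (p : ℝ) ^ (-α)) ≤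
          MF α N (Function.update s p w) * ((R : ℝ) ^ α * (p : ℝ) ^ (-α)) / (1 - (p : ℝ) ^ (-α)) :=
        div_le_div_of_nonneg_right (mul_le_mul_of_nonneg_left h5 hM) (by linarith)
      have h9 : MF α N (Function.update s p w) * (R : ℝ) ^ α +
          MF α N (Function.update s p w) * ((R : ℝ) ^ α * (p : ℝ) ^ (-α)) / (1 - (p : ℝ) ^ (-α)) =
          MF α N (Function.update s p w) * (R : ℝ) ^ α / (1 - (p : ℝ) ^ (-α)) := by
        have : (1 - (p : ℝ) ^ (-α)) ≠ 0 := by linarith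
        field_simp
        ring
      rw [← h9]
      linarith

/-- changing one sign -/
lemma MF_ratio {α : ℝ} (hα : 0 < α) {N : ℕ} (hN : 1 ≤ N) {p : ℕ} (hp : p.Prime) (s : ℕ → ℝ)
    {v w : ℝ} (hv : |v| = 1) (hw : |w| = 1) : MF α N (Function.update s p v) ≤
      (1 + (p : ℝ) ^ (-α)) / (1 - (p : ℝ) ^ (-α)) * MF α N (Function.update s p w) := by
  have hp1 : (1 : ℝ) < p := by exact_mod_cast hp.one_lt
  have hp0 : (0 : ℝ) < p := by linarith
  have ht1 : (p : ℝ) ^ (-α) < 1 := Real.rpow_lt_one_of_one_lt_of_neg hp1 (by linarith)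
  have ht0 : 0 < (p : ℝ) ^ (-α) := by positivity
  refine MF_le hN fun R hR hRN x => ?_
  have hR0 : (0 : ℝ) < R := by exact_mod_cast hR
  have hM : 0 ≤ MF α N (Function.update s p w) := by
    linarith [one_le_MF hα.le hN (Function.update s p w)]
  have h1 := peel (Function.update s p v) hp R x
  rw [Function.update_idem, Function.update_self] at h1
  have h2 : ‖Fs (Function.update s p v) R (x : ℝ)‖ ≤ ‖Fs (Function.update s p 0) R (x : ℝ)‖ +
      ‖Fs (Function.update s p 0) (R / p) (p * (x : ℝ))‖ := by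
    rw [h1]
    refine (norm_add_le _ _).trans (le_of_eq ?_)
    rw [norm_mul, Complex.norm_real, Real.norm_eq_abs, hv, one_mul]
  have h3 := zero_bound hα hp s hw R hRN x
  have h4 := zero_bound hα hp s hw (R / p) ((Nat.div_le_self _ _).trans hRN) ((p : ℚ) * x)
  push_cast at h4
  have h5 : (((R / p : ℕ) : ℝ)) ^ α ≤ (R : ℝ) ^ α * (p : ℝ) ^ (-α) := by
    have h6 : (((R / p : ℕ) : ℝ)) ^ α ≤ ((R : ℝ) / p) ^ α :=
      Real.rpow_le_rpow (Nat.cast_nonneg _) Nat.cast_div_le hα.le
    refine h6.trans (le_of_eq ?_)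
    rw [Real.div_rpow hR0.le hp0.le, Real.rpow_neg hp0.le, div_eq_mul_inv]
  have h8 : MF α N (Function.update s p w) * (((R / p : ℕ) : ℝ)) ^ α / (1 - (p : ℝ) ^ (-α)) ≤
      MF α N (Function.update s p w) * ((R : ℝ) ^ α * (p : ℝ) ^ (-α)) / (1 - (p : ℝ) ^ (-α)) :=
    div_le_div_of_nonneg_right (mul_le_mul_of_nonneg_left h5 hM) (by linarith)
  have h9 : MF α N (Function.update s p w) * (R : ℝ) ^ α / (1 - (p : ℝ) ^ (-α)) +
      MF α N (Function.update s p w) * ((R : ℝ) ^ α * (p : ℝ) ^ (-α)) / (1 - (p : ℝ) ^ (-α)) =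
      (1 + (p : ℝ) ^ (-α)) / (1 - (p : ℝ) ^ (-α)) * MF α N (Function.update s p w) *
        (R : ℝ) ^ α := by
    have : (1 - (p : ℝ) ^ (-α)) ≠ 0 := by linarith
    field_simp
  rw [← h9]
  linarith

end Pool.Agent.U322.FZ
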