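import Pool.Agent.U322.FZ4

/-!
# Positive functions of signs with bounded ratios
-/

set_option autoImplicit false

open Finset MeasureTheory Filter Topology ProbabilityTheory

namespace Pool.Agent.U322.FZ

open Pool.Agent.U585.GC (Signs rf PN mem_PN rf_zero Dep mS mS_le dep_meas indep_int indep_mS)
open Pool.Agent.U585.SK (rf_le)

/-- vectors of signs -/
def Sg (g : ℕ → ℝ) : Prop := ∀ p, g p = 1 ∨ g p = -1

lemma Sg.upd {g : ℕ → ℝ} (h : Sg g) (p : ℕ) {v : ℝ} (hv : v = 1 ∨ v = -1) :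
    Sg (Function.update g p v) := by
  intro q
  by_cases hq : q = p
  · subst hq
    rw [Function.update_self]
    exact hv
  · rw [Function.update_of_ne hq]
    exact h q

lemma upd_meas (p : ℕ) (v : ℝ) : Measurable fun g : ℕ → ℝ => Function.update g p v := by
  refine measurable_pi_lambda _ fun q => ?_
  by_cases hq : q = p
  · subst hq
    simp only [Function.update_self]
    exact measurable_const
  · simp only [Function.update_of_ne hq]
    exact measurable_pi_apply q

variable {Ω : Type} [mΩ : MeasurableSpace Ω] {P : Measure Ω} [IsProbabilityMeasure P]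
  {f : ℕ → Ω → ℝ}

lemma intb (h : Signs P f) {Ψ : (ℕ → ℝ) → ℝ} (hm : Measurable Ψ) {B : ℝ}
    (hb : ∀ g, Sg g → |Ψ g| ≤ B) : Integrable (fun ω => Ψ fun q => f q ω) P := by
  refine Integrable.of_bound (C := B)
    (hm.comp (measurable_pi_lambda _ fun q => h.meas q)).aestronglyMeasurable
    (Eventually.of_forall fun ω => ?_)
  rw [Real.norm_eq_abs]
  exact hb _ fun p => h.val p ω

/-- averaging over one sign -/
lemma avg (h : Signs P f) (p : ℕ) {Ψ : (ℕ → ℝ) → ℝ} (hm : Measurable Ψ) {B : ℝ}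
    (hb : ∀ g, Sg g → |Ψ g| ≤ B) : ∫ ω, Ψ (fun q => f q ω) ∂P =
      ∫ ω, (Ψ (Function.update (fun q => f q ω) p 1) +
        Ψ (Function.update (fun q => f q ω) p (-1))) / 2 ∂P := by
  obtain ⟨Ψ₀, hΨ₀⟩ : ∃ Ψ₀ : (ℕ → ℝ) → ℝ, Ψ₀ = fun g => (Ψ (Function.update g p 1) +
    Ψ (Function.update g p (-1))) / 2 := ⟨_, rfl⟩
  obtain ⟨Ψ₁, hΨ₁⟩ : ∃ Ψ₁ : (ℕ → ℝ) → ℝ, Ψ₁ = fun g => (Ψ (Function.update g p 1) -
    Ψ (Function.update g p (-1))) / 2 := ⟨_, rfl⟩
  have hm0 : Measurable Ψ₀ := by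
    rw [hΨ₀]
    exact ((hm.comp (upd_meas p 1)).add (hm.comp (upd_meas p (-1)))).div_const 2
  have hm1 : Measurable Ψ₁ := by
    rw [hΨ₁]
    exact ((hm.comp (upd_meas p 1)).sub (hm.comp (upd_meas p (-1)))).div_const 2
  have hB1 : ∀ g, Sg g → |Ψ (Function.update g p 1)| ≤ B := fun g hg => hb _ (hg.upd p (Or.inl rfl))
  have hB2 : ∀ g, Sg g → |Ψ (Function.update g p (-1))| ≤ B := fun g hg =>
    hb _ (hg.upd p (Or.inr rfl))
  have hb0 : ∀ g, Sg g → |Ψ₀ g| ≤ B := by
    intro g hg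
    have h1 := abs_le.1 (hB1 g hg)
    have h2 := abs_le.1 (hB2 g hg)
    rw [hΨ₀, abs_le]
    constructor <;> simp only <;> linarith
  have hb1 : ∀ g, Sg g → |Ψ₁ g| ≤ B := by
    intro g hg
    have h1 := abs_le.1 (hB1 g hg)
    have h2 := abs_le.1 (hB2 g hg)
    rw [hΨ₁, abs_le]
    constructor <;> simp only <;> linarith
  have hdec : ∀ ω, Ψ (fun q => f q ω) = Ψ₀ (fun q => f q ω) + f p ω * Ψ₁ (fun q => f q ω) := by
    intro ω
    rw [hΨ₀, hΨ₁]
    simp only
    rcases h.val p ω with h1 | h1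
    · have h2 : Function.update (fun q => f q ω) p 1 = fun q => f q ω := by
        rw [← h1]
        exact Function.update_eq_self p (fun q => f q ω)
      rw [h1, h2]
      ring
    · have h2 : Function.update (fun q => f q ω) p (-1) = fun q => f q ω := by
        rw [← h1]
        exact Function.update_eq_self p (fun q => f q ω)
      rw [h1, h2]
      ring
  have hdep : Dep ({p}ᶜ : Set ℕ) Ψ₁ := by
    intro g g' hgg
    rw [hΨ₁]
    simp only
    have h3 : ∀ v : ℝ, Function.update g p v = Function.update g' p v := by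
      intro v
      funext q
      by_cases hq : q = p
      · subst hq
        rw [Function.update_self, Function.update_self]
      · rw [Function.update_of_ne hq, Function.update_of_ne hq]
        exact hgg q hq
    rw [h3, h3]
  have hdp : Dep ({p} : Set ℕ) (fun g : ℕ → ℝ => g p) := fun g g' hgg => hgg p rfl
  have hzero : ∫ ω, f p ω * Ψ₁ (fun q => f q ω) ∂P = 0 := by
    rw [indep_int (mS_le h {p}) (mS_le h {p}ᶜ) (indep_mS h disjoint_compl_right)
      (dep_meas (measurable_pi_apply p) hdp) (dep_meas hm1 hdep), h.mean p, zero_mul]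
  have hint1 : Integrable (fun ω => f p ω * Ψ₁ (fun q => f q ω)) P := by
    refine intb h (Ψ := fun g => g p * Ψ₁ g) ((measurable_pi_apply p).mul hm1) (B := B)
      fun g hg => ?_
    rw [abs_mul]
    have h4 : |g p| = 1 := by rcases hg p with h | h <;> rw [h] <;> simp
    rw [h4, one_mul]
    exact hb1 g hg
  calc ∫ ω, Ψ (fun q => f q ω) ∂P =
        ∫ ω, (Ψ₀ (fun q => f q ω) + f p ω * Ψ₁ (fun q => f q ω)) ∂P :=
        integral_congr_ae (Eventually.of_forall hdec)
    _ = ∫ ω, Ψ₀ (fun q => f q ω) ∂P := by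
        rw [integral_add (intb h hm0 hb0) hint1, hzero, add_zero]
    _ = _ := by rw [hΨ₀]

lemma two_pt {a b r : ℝ} (ha : 0 < a) (hb : 0 < b) (hr : 0 < r) (h1 : a ≤ r * b)
    (h2 : b ≤ r * a) : (a⁻¹ + b⁻¹) / 2 ≤ (2 + r + r⁻¹) / 4 * ((a + b) / 2)⁻¹ := by
  have h3 : (a - r * b) * (r * a - b) ≤ 0 :=
    mul_nonpos_of_nonpos_of_nonneg (by linarith) (by linarith)
  have e1 : (a⁻¹ + b⁻¹) / 2 = (a + b) / (2 * (a * b)) := by
    field_simp
    ring
  have e2 : (2 + r + r⁻¹) / 4 * ((a + b) / 2)⁻¹ = (2 * r + r ^ 2 + 1) / (2 * r * (a + b)) := by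
    field_simp
    ring
  rw [e1, e2, div_le_div_iff₀ (by positivity) (by positivity)]
  nlinarith

/-- the product of the mean values of a function with bounded ratios and of its inverse -/
theorem pp (h : Signs P f) (r : ℕ → ℝ) (S : Finset ℕ) : (∀ p ∈ S, 0 < r p) →
    ∀ Φ : (ℕ → ℝ) → ℝ, Measurable Φ → ∀ B : ℝ, (∀ g, Sg g → Φ g ≤ B) → (∀ g, Sg g → 1 ≤ Φ g) →
      Dep (S : Set ℕ) Φ →
      (∀ p ∈ S, ∀ g, Sg g → Φ (Function.update g p 1) ≤ r p * Φ (Function.update g p (-1)) ∧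
        Φ (Function.update g p (-1)) ≤ r p * Φ (Function.update g p 1)) →
      (∫ ω, Φ (fun q => f q ω) ∂P) * (∫ ω, (Φ (fun q => f q ω))⁻¹ ∂P) ≤
        ∏ p ∈ S, ((2 + r p + (r p)⁻¹) / 4) := by
  classical
  induction S using Finset.induction_on with
  | empty =>
    intro _ Φ _ B _ h1 hD _
    have hc : ∀ g, Φ g = Φ fun _ => 1 := fun g => hD _ _ (by simp)
    have h2 : 1 ≤ Φ fun _ => 1 := h1 _ fun _ => Or.inl rfl
    have h3 : ∀ ω, Φ (fun q => f q ω) = Φ fun _ => 1 := fun ω => hc _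
    simp only [h3, integral_const, probReal_univ, one_smul, prod_empty]
    rw [mul_inv_cancel₀ (by linarith)]
  | insert p S hp ih =>
    intro hr Φ hm B hB h1 hD hrat
    obtain ⟨Φ', hΦ'⟩ : ∃ Φ' : (ℕ → ℝ) → ℝ, Φ' = fun g => (Φ (Function.update g p 1) +
      Φ (Function.update g p (-1))) / 2 := ⟨_, rfl⟩
    have hm' : Measurable Φ' := by
      rw [hΦ']
      exact ((hm.comp (upd_meas p 1)).add (hm.comp (upd_meas p (-1)))).div_const 2
    have hB' : ∀ g, Sg g → Φ' g ≤ B := by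
      intro g hg
      have h2 := hB _ (hg.upd p (Or.inl rfl : (1 : ℝ) = 1 ∨ (1 : ℝ) = -1))
      have h3 := hB _ (hg.upd p (Or.inr rfl : (-1 : ℝ) = 1 ∨ (-1 : ℝ) = -1))
      rw [hΦ']
      simp only
      linarith
    have h1' : ∀ g, Sg g → 1 ≤ Φ' g := by
      intro g hg
      have h2 := h1 _ (hg.upd p (Or.inl rfl : (1 : ℝ) = 1 ∨ (1 : ℝ) = -1))
      have h3 := h1 _ (hg.upd p (Or.inr rfl : (-1 : ℝ) = 1 ∨ (-1 : ℝ) = -1))
      rw [hΦ']
      simp only
      linarith
    have hD' : Dep (S : Set ℕ) Φ' := by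
      intro g g' hgg
      rw [hΦ']
      simp only
      have h3 : ∀ v : ℝ, Φ (Function.update g p v) = Φ (Function.update g' p v) := by
        intro v
        refine hD _ _ fun q hq => ?_
        by_cases hqp : q = p
        · subst hqp
          rw [Function.update_self, Function.update_self]
        · rw [Function.update_of_ne hqp, Function.update_of_ne hqp]
          refine hgg q ?_
          rw [mem_coe, mem_insert] at hq
          exact hq.resolve_left hqp
      rw [h3, h3]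
    have hrat' : ∀ q ∈ S, ∀ g, Sg g →
        Φ' (Function.update g q 1) ≤ r q * Φ' (Function.update g q (-1)) ∧
        Φ' (Function.update g q (-1)) ≤ r q * Φ' (Function.update g q 1) := by
      intro q hq g hg
      have hne : q ≠ p := by
        rintro rfl
        exact hp hq
      have hcm : ∀ v w : ℝ, Function.update (Function.update g q v) p w =
          Function.update (Function.update g p w) q v := fun v w =>
        Function.update_comm hne v w g
      obtain ⟨a1, a2⟩ := hrat q (mem_insert_of_mem hq) _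
        (hg.upd p (Or.inl rfl : (1 : ℝ) = 1 ∨ (1 : ℝ) = -1))
      obtain ⟨b1, b2⟩ := hrat q (mem_insert_of_mem hq) _
        (hg.upd p (Or.inr rfl : (-1 : ℝ) = 1 ∨ (-1 : ℝ) = -1))
      rw [hΦ']
      simp only [hcm]
      constructor <;> linarith
    have hIH := ih (fun q hq => hr q (mem_insert_of_mem hq)) Φ' hm' B hB' h1' hD' hrat'
    have hE1 : ∫ ω, Φ (fun q => f q ω) ∂P = ∫ ω, Φ' (fun q => f q ω) ∂P := by
      rw [avg h p hm (B := B) fun g hg => by
        rw [abs_of_nonneg (by linarith [h1 g hg])]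
        exact hB g hg, hΦ']
    have hinv : ∀ g, Sg g → |(Φ g)⁻¹| ≤ 1 := by
      intro g hg
      have h2 := h1 g hg
      rw [abs_of_nonneg (by positivity)]
      exact inv_le_one_of_one_le₀ h2
    have hinv' : ∀ g, Sg g → |(Φ' g)⁻¹| ≤ 1 := by
      intro g hg
      have h2 := h1' g hg
      rw [abs_of_nonneg (by positivity)]
      exact inv_le_one_of_one_le₀ h2
    have hrp := hr p (mem_insert_self p S)
    have hk : 0 ≤ (2 + r p + (r p)⁻¹) / 4 := by positivity
    have hE2 : ∫ ω, (Φ (fun q => f q ω))⁻¹ ∂P ≤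
        (2 + r p + (r p)⁻¹) / 4 * ∫ ω, (Φ' (fun q => f q ω))⁻¹ ∂P := by
      rw [avg h p (Ψ := fun g => (Φ g)⁻¹) hm.inv hinv, ← integral_const_mul]
      refine integral_mono ?_ ?_ fun ω => ?_
      · refine intb h (Ψ := fun g => ((Φ (Function.update g p 1))⁻¹ +
          (Φ (Function.update g p (-1)))⁻¹) / 2) ?_ (B := 1) fun g hg => ?_
        · exact (((hm.comp (upd_meas p 1)).inv).add ((hm.comp (upd_meas p (-1))).inv)).div_const 2
        · have h2 := abs_le.1 (hinv _ (hg.upd p (Or.inl rfl : (1 : ℝ) = 1 ∨ (1 : ℝ) = -1)))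
          have h3 := abs_le.1 (hinv _ (hg.upd p (Or.inr rfl : (-1 : ℝ) = 1 ∨ (-1 : ℝ) = -1)))
          rw [abs_le]
          constructor <;> linarith
      · exact (intb h (Ψ := fun g => (Φ' g)⁻¹) hm'.inv hinv').const_mul _
      · have hg : Sg fun q => f q ω := fun q => h.val q ω
        have h2 := h1 _ (hg.upd p (Or.inl rfl : (1 : ℝ) = 1 ∨ (1 : ℝ) = -1))
        have h3 := h1 _ (hg.upd p (Or.inr rfl : (-1 : ℝ) = 1 ∨ (-1 : ℝ) = -1))
        obtain ⟨a1, a2⟩ := hrat p (mem_insert_self p S) _ hg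
        rw [hΦ']
        exact two_pt (by linarith) (by linarith) hrp a1 a2
    have hpos : 0 ≤ ∫ ω, Φ' (fun q => f q ω) ∂P :=
      integral_nonneg fun ω => by
        have := h1' _ (fun q => h.val q ω : Sg fun q => f q ω)
        change 0 ≤ Φ' fun q => f q ω
        linarith
    rw [prod_insert hp, hE1]
    calc (∫ ω, Φ' (fun q => f q ω) ∂P) * ∫ ω, (Φ (fun q => f q ω))⁻¹ ∂P ≤
          (∫ ω, Φ' (fun q => f q ω) ∂P) *
            ((2 + r p + (r p)⁻¹) / 4 * ∫ ω, (Φ' (fun q => f q ω))⁻¹ ∂P) :=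
          mul_le_mul_of_nonneg_left hE2 hpos
      _ = (2 + r p + (r p)⁻¹) / 4 * ((∫ ω, Φ' (fun q => f q ω) ∂P) *
            ∫ ω, (Φ' (fun q => f q ω))⁻¹ ∂P) := by ring
      _ ≤ _ := mul_le_mul_of_nonneg_left hIH hk

end Pool.Agent.U322.FZ
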