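import Pool.Agent.U322.FZ5

/-!
# The exponent is almost surely at least that of the kept part
-/

set_option autoImplicit false

open Finset MeasureTheory Filter Topology ProbabilityTheory

namespace Pool.Agent.U322.FZ

open Pool.Agent.U585.GC (Signs rf PN mem_PN rf_zero Dep mS mS_le dep_meas indep_int indep_mS)
open Pool.Agent.U585.SK (rf_le)

variable {Ω : Type} [mΩ : MeasurableSpace Ω] {P : Measure Ω} [IsProbabilityMeasure P]
  {f : ℕ → Ω → ℝ}

lemma mix_meas (A : Set ℕ) : Measurable fun g : ℕ → ℝ => mix A g := by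
  classical
  refine measurable_pi_lambda _ fun q => ?_
  unfold mix
  by_cases hq : q ∈ A
  · simp only [if_pos hq]
    exact measurable_const
  · simp only [if_neg hq]
    exact measurable_pi_apply q

lemma mix_upd {A : Set ℕ} {p : ℕ} (hp : p ∉ A) (g : ℕ → ℝ) (v : ℝ) :
    mix A (Function.update g p v) = Function.update (mix A g) p v := by
  classical
  funext q
  by_cases hq : q = p
  · subst hq
    rw [Function.update_self]
    unfold mix
    rw [if_neg hp, Function.update_self]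
  · rw [Function.update_of_ne hq]
    unfold mix
    rw [Function.update_of_ne hq]

lemma MF_dep (A : Set ℕ) (α : ℝ) (N : ℕ) : open Classical in
    Dep (((PN N).filter (¬ · ∈ A) : Finset ℕ) : Set ℕ) (fun g => MF α N (mix A g)) := by
  classical
  intro g g' hgg
  have h1 : ∀ n : ℕ, n ≤ N → rf (mix A g) n = rf (mix A g') n := by
    intro n hn
    unfold rf
    split_ifs with hs
    · refine prod_congr rfl fun p hp => ?_
      have h2 := Nat.mem_primeFactors.1 hp
      unfold mix
      split_ifs with hA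
      · rfl
      · refine hgg p ?_
        rw [mem_coe, mem_filter, mem_PN]
        exact ⟨⟨h2.1, (Nat.le_of_dvd (Nat.pos_of_ne_zero h2.2.2) h2.2.1).trans hn⟩, hA⟩
    · rfl
  change MF α N (mix A g) = MF α N (mix A g')
  unfold MF
  congr 1
  funext i
  congr 2
  unfold Fs
  refine sum_congr rfl fun n hn => ?_
  rw [mem_Icc] at hn
  have h3 := i.1.2
  rw [h1 n (by omega)]

lemma Fs_triv {s : ℕ → ℝ} (hs : ∀ n, |rf s n| ≤ 1) (R : ℕ) (x : ℝ) : ‖Fs s R x‖ ≤ R := by
  unfold Fs
  refine (norm_sum_le _ _).trans ?_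
  calc ∑ n ∈ Icc 1 R, ‖((rf s n : ℝ) : ℂ) * e (n * x)‖ ≤ ∑ _n ∈ Icc 1 R, (1 : ℝ) := by
        refine sum_le_sum fun n _ => ?_
        rw [norm_mul, norm_e, mul_one, Complex.norm_real, Real.norm_eq_abs]
        exact hs n
    _ = _ := by simp

lemma kappa_le {t : ℝ} (ht0 : 0 < t) (ht1 : t < 1) (ht : t ^ 2 ≤ 1 / 2) :
    (2 + (1 + t) / (1 - t) + ((1 + t) / (1 - t))⁻¹) / 4 ≤ Real.exp (2 * t ^ 2) := by
  have h1 : 0 < 1 - t := by linarith
  have h2 : 0 < 1 - t ^ 2 := by linarith
  have h3 : (2 + (1 + t) / (1 - t) + ((1 + t) / (1 - t))⁻¹) / 4 = 1 / (1 - t ^ 2) := by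
    have h4 : (1 - t ^ 2) = (1 - t) * (1 + t) := by ring
    rw [h4]
    field_simp
    ring
  rw [h3]
  have h5 : 1 / (1 - t ^ 2) ≤ 1 + 2 * t ^ 2 := by
    rw [div_le_iff₀ h2]
    nlinarith [sq_nonneg t]
  have h6 := Real.add_one_le_exp (2 * t ^ 2)
  linarith

/-- mean values of the maximal function and of its inverse -/
theorem const_bound (h : Signs P f) (A : Set ℕ) {α : ℝ} (hα : 1 / 2 < α) {N : ℕ} (hN : 1 ≤ N) :
    (∫ ω, MF α N (mix A fun q => f q ω) ∂P) *
      (∫ ω, (MF α N (mix A fun q => f q ω))⁻¹ ∂P) ≤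
        Real.exp (2 * ∑' d : ℕ, 1 / (d : ℝ) ^ (2 * α)) := by
  classical
  have hs : Summable fun d : ℕ => 1 / (d : ℝ) ^ (2 * α) :=
    Real.summable_one_div_nat_rpow.2 (by linarith)
  have hα0 : 0 < α := by linarith
  have ht : ∀ p : ℕ, p.Prime → 0 < (p : ℝ) ^ (-α) ∧ (p : ℝ) ^ (-α) < 1 ∧
      ((p : ℝ) ^ (-α)) ^ 2 = 1 / (p : ℝ) ^ (2 * α) ∧ ((p : ℝ) ^ (-α)) ^ 2 ≤ 1 / 2 := by
    intro p hp
    have hp2 : (2 : ℝ) ≤ p := by exact_mod_cast hp.two_le
    have hp0 : (0 : ℝ) < p := by linarith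
    have h1 : ((p : ℝ) ^ (-α)) ^ 2 = 1 / (p : ℝ) ^ (2 * α) := by
      rw [Real.rpow_neg hp0.le, inv_pow, mul_comm 2 α, Real.rpow_mul hp0.le, Real.rpow_two,
        one_div]
    refine ⟨by positivity, Real.rpow_lt_one_of_one_lt_of_neg (by linarith) (by linarith), h1, ?_⟩
    rw [h1]
    refine one_div_le_one_div_of_le (by norm_num) ?_
    calc (2 : ℝ) = (2 : ℝ) ^ (1 : ℝ) := (Real.rpow_one _).symm
      _ ≤ (2 : ℝ) ^ (2 * α) := Real.rpow_le_rpow_of_exponent_le (by norm_num) (by linarith)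
      _ ≤ (p : ℝ) ^ (2 * α) := Real.rpow_le_rpow (by norm_num) hp2 (by linarith)
  have hmem : ∀ p ∈ (PN N).filter (¬ · ∈ A), p.Prime ∧ p ∉ A := by
    intro p hp
    rw [mem_filter, mem_PN] at hp
    exact ⟨hp.1.1, hp.2⟩
  have hsg : ∀ g, Sg g → ∀ n, |rf (mix A g) n| ≤ 1 := fun g hg n => rf_le (mix_val hg) n
  have h1 := pp h (fun p => (1 + (p : ℝ) ^ (-α)) / (1 - (p : ℝ) ^ (-α)))
    ((PN N).filter (¬ · ∈ A)) (fun p hp => by
      obtain ⟨a, b, _⟩ := ht p (hmem p hp).1
      have : 0 < 1 - (p : ℝ) ^ (-α) := by linarith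
      positivity) (fun g => MF α N (mix A g)) ((MF_meas α N).comp (mix_meas A)) N
    (fun g hg => MF_le hN fun R hR hRN x => by
      refine (Fs_triv (hsg g hg) R x).trans ?_
      have h2 : (1 : ℝ) ≤ (R : ℝ) ^ α := Real.one_le_rpow (by exact_mod_cast hR) hα0.le
      have h3 : (R : ℝ) ≤ N := by exact_mod_cast hRN
      have h4 : (0 : ℝ) ≤ N := Nat.cast_nonneg _
      nlinarith)
    (fun g _ => one_le_MF hα0.le hN _) (MF_dep A α N)
    (fun p hp g _ => by
      obtain ⟨hpp, hpA⟩ := hmem p hp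
      simp only [mix_upd hpA]
      exact ⟨MF_ratio hα0 hN hpp _ (by simp) (by simp), MF_ratio hα0 hN hpp _ (by simp) (by simp)⟩)
  refine h1.trans ?_
  calc ∏ p ∈ (PN N).filter (¬ · ∈ A), ((2 + (1 + (p : ℝ) ^ (-α)) / (1 - (p : ℝ) ^ (-α)) +
        ((1 + (p : ℝ) ^ (-α)) / (1 - (p : ℝ) ^ (-α)))⁻¹) / 4) ≤
        ∏ p ∈ (PN N).filter (¬ · ∈ A), Real.exp (2 * (1 / (p : ℝ) ^ (2 * α))) := by
        refine prod_le_prod (fun p hp => ?_) fun p hp => ?_
        · obtain ⟨a, b, _⟩ := ht p (hmem p hp).1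
          have : 0 < 1 - (p : ℝ) ^ (-α) := by linarith
          positivity
        · obtain ⟨a, b, c, d⟩ := ht p (hmem p hp).1
          rw [← c]
          exact kappa_le a b d
    _ = Real.exp (∑ p ∈ (PN N).filter (¬ · ∈ A), 2 * (1 / (p : ℝ) ^ (2 * α))) :=
        (Real.exp_sum _ _).symm
    _ ≤ _ := by
        refine Real.exp_le_exp.2 ?_
        rw [← mul_sum]
        refine mul_le_mul_of_nonneg_left ?_ (by norm_num)
        exact hs.sum_le_tsum _ fun d _ => by positivity

lemma Fs_cont (s : ℕ → ℝ) (R : ℕ) : Continuous (Fs s R) := by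
  unfold Fs e
  fun_prop

/-- a bound which holds with positive probability holds for the kept part -/
theorem null (h : Signs P f) (A : Set ℕ) {α : ℝ} (hα : 1 / 2 < α) (hg : α < gexp (froz A))
    (L : ℕ) : P {ω | ∀ N : ℕ, 1 ≤ N → MF α N (mix A fun q => f q ω) ≤ L} = 0 := by
  by_contra hne
  obtain ⟨E, hE⟩ : ∃ E : Set Ω, E = {ω | ∀ N : ℕ, 1 ≤ N → MF α N (mix A fun q => f q ω) ≤ L} :=
    ⟨_, rfl⟩
  rw [← hE] at hne
  have hα0 : 0 < α := by linarith
  have hfm : Measurable fun ω => (fun q => f q ω : ℕ → ℝ) := measurable_pi_lambda _ fun q => h.meas q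
  have hMm : ∀ N, Measurable fun ω => MF α N (mix A fun q => f q ω) := fun N =>
    ((MF_meas α N).comp (mix_meas A)).comp hfm
  have hEm : MeasurableSet E := by
    rw [hE, Set.setOf_forall]
    refine MeasurableSet.iInter fun N => ?_
    rw [Set.setOf_forall]
    exact MeasurableSet.iInter fun _ => measurableSet_le (hMm N) measurable_const
  have hδ : 0 < P.real E := ENNReal.toReal_pos hne (measure_ne_top P E)
  obtain ⟨K, hK, hb⟩ : ∃ K : ℝ, 0 < K ∧ ∀ N : ℕ, 1 ≤ N →
      (∫ ω, MF α N (mix A fun q => f q ω) ∂P) *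
        (∫ ω, (MF α N (mix A fun q => f q ω))⁻¹ ∂P) ≤ K :=
    ⟨_, Real.exp_pos _, fun N hN => const_bound h A hα hN⟩
  have hsg : ∀ ω, Sg fun q => f q ω := fun ω q => h.val q ω
  have hL : (1 : ℝ) ≤ L := by
    by_contra hcon
    have : E = ∅ := by
      rw [Set.eq_empty_iff_forall_notMem]
      intro ω hω
      rw [hE] at hω
      have h1 := hω 1 le_rfl
      have h2 := one_le_MF hα0.le le_rfl (mix A fun q => f q ω) (α := α) (N := 1)
      exact hcon (h2.trans h1)
    rw [this, measure_empty] at hne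
    exact hne rfl
  have hL0 : (0 : ℝ) < L := by linarith
  have hMint : ∀ N, 1 ≤ N → Integrable (fun ω => MF α N (mix A fun q => f q ω)) P := by
    intro N hN
    refine intb h (Ψ := fun g => MF α N (mix A g)) ((MF_meas α N).comp (mix_meas A)) (B := N)
      fun g hg => ?_
    have h2 := one_le_MF hα0.le hN (mix A g)
    rw [abs_of_nonneg (by linarith)]
    refine MF_le hN fun R hR hRN x => ?_
    refine (Fs_triv (fun n => rf_le (mix_val hg) n) R x).trans ?_
    have h2 : (1 : ℝ) ≤ (R : ℝ) ^ α := Real.one_le_rpow (by exact_mod_cast hR) hα0.le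
    have h3 : (R : ℝ) ≤ N := by exact_mod_cast hRN
    have h4 : (0 : ℝ) ≤ N := Nat.cast_nonneg _
    nlinarith
  have hIint : ∀ N, 1 ≤ N → Integrable (fun ω => (MF α N (mix A fun q => f q ω))⁻¹) P := by
    intro N hN
    refine intb h (Ψ := fun g => (MF α N (mix A g))⁻¹) ((MF_meas α N).comp (mix_meas A)).inv
      (B := 1) fun g hg => ?_
    have h2 := one_le_MF hα0.le hN (mix A g)
    rw [abs_of_nonneg (by positivity)]
    exact inv_le_one_of_one_le₀ h2
  have hmean : ∀ N, 1 ≤ N → ∫ ω, MF α N (mix A fun q => f q ω) ∂P ≤ K * L / P.real E := by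
    intro N hN
    have h1 : P.real E * (L : ℝ)⁻¹ ≤ ∫ ω, (MF α N (mix A fun q => f q ω))⁻¹ ∂P := by
      have h2 : ∫ ω, E.indicator (fun _ => (L : ℝ)⁻¹) ω ∂P = P.real E * (L : ℝ)⁻¹ := by
        rw [integral_indicator_const _ hEm, smul_eq_mul]
      rw [← h2]
      refine integral_mono ((integrable_const _).indicator hEm) (hIint N hN) fun ω => ?_
      by_cases hω : ω ∈ E
      · rw [Set.indicator_of_mem hω]
        have h3 := one_le_MF hα0.le hN (mix A fun q => f q ω)
        rw [hE] at hω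
        exact inv_anti₀ (by linarith) (hω N hN)
      · rw [Set.indicator_of_notMem hω]
        have h3 := one_le_MF hα0.le hN (mix A fun q => f q ω)
        positivity
    have h3 := hb N hN
    have h4 : 0 ≤ ∫ ω, MF α N (mix A fun q => f q ω) ∂P := integral_nonneg fun ω => by
      have h3 := one_le_MF hα0.le hN (mix A fun q => f q ω)
      change 0 ≤ MF α N (mix A fun q => f q ω)
      linarith
    have h5 := (mul_le_mul_of_nonneg_left h1 h4).trans h3
    rw [le_div_iff₀ hδ]
    have h6 : (∫ ω, MF α N (mix A fun q => f q ω) ∂P) * P.real E =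
        ((∫ ω, MF α N (mix A fun q => f q ω) ∂P) * (P.real E * (L : ℝ)⁻¹)) * L := by
      field_simp
    rw [h6]
    exact mul_le_mul_of_nonneg_right h5 hL0.le
  have hB : Bd (froz A) α := by
    refine ⟨K * L / P.real E, fun R hR x _ => ?_⟩
    have hR0 : (0 : ℝ) < R := by exact_mod_cast hR
    have hq : ∀ y : ℚ, ‖Fs (froz A) R y‖ ≤ K * L / P.real E * (R : ℝ) ^ α := by
      intro y
      refine (mean_ge h A hR y).trans ?_
      have h1 : ∫ ω, ‖Fs (mix A fun p => f p ω) R y‖ ∂P ≤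
          ∫ ω, MF α R (mix A fun q => f q ω) * (R : ℝ) ^ α ∂P := by
        refine integral_mono ?_ ((hMint R hR).mul_const _) fun ω => le_MF hα0.le hR le_rfl _ y
        refine Integrable.mono' ((hMint R hR).mul_const ((R : ℝ) ^ α)) ?_
          (Eventually.of_forall fun ω => ?_)
        · refine Measurable.aestronglyMeasurable (Measurable.norm ?_)
          unfold Fs
          refine Finset.measurable_sum _ fun n _ => ?_
          refine Measurable.mul_const ?_ _
          refine Complex.measurable_ofReal.comp ?_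
          have h2 : Measurable fun s : ℕ → ℝ => rf s n := by
            unfold rf
            split_ifs
            · exact Finset.measurable_prod _ fun p _ => measurable_pi_apply p
            · exact measurable_const
          exact (h2.comp (mix_meas A)).comp hfm
        · rw [norm_norm]
          exact le_MF hα0.le hR le_rfl _ y
      refine h1.trans ?_
      rw [integral_mul_const]
      exact mul_le_mul_of_nonneg_right (hmean R hR) (by positivity)
    have hcl : IsClosed {y : ℝ | ‖Fs (froz A) R y‖ ≤ K * L / P.real E * (R : ℝ) ^ α} :=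
      isClosed_le (Fs_cont _ R).norm continuous_const
    have hsub : Set.range ((↑) : ℚ → ℝ) ⊆
        {y : ℝ | ‖Fs (froz A) R y‖ ≤ K * L / P.real E * (R : ℝ) ^ α} := by
      rintro _ ⟨y, rfl⟩
      exact hq y
    have hx : x ∈ closure (Set.range ((↑) : ℚ → ℝ)) := Rat.denseRange_cast x
    exact hcl.closure_subset_iff.2 hsub hx
  have := csInf_le (bdd (froz A)) ⟨hα0.le, hB⟩
  change gexp (froz A) ≤ α at this
  linarith

/-- almost surely the exponent is at least that of the kept part -/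
theorem gexp_ge (h : Signs P f) (A : Set ℕ) :
    ∀ᵐ ω ∂P, gexp (froz A) ≤ gexp (mix A fun p => f p ω) := by
  have h1 : ∀ᵐ ω ∂P, ∀ α : ℚ, ∀ L : ℕ, 1 / 2 < (α : ℝ) → (α : ℝ) < gexp (froz A) →
      ¬ ∀ N : ℕ, 1 ≤ N → MF α N (mix A fun q => f q ω) ≤ L := by
    refine ae_all_iff.2 fun α => ae_all_iff.2 fun L => ?_
    by_cases h2 : 1 / 2 < (α : ℝ)
    · by_cases h3 : (α : ℝ) < gexp (froz A)
      · have h4 := null h A h2 h3 L
        rw [ae_iff]
        refine measure_mono_null ?_ h4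
        intro ω hω
        rw [Set.mem_setOf_eq] at hω ⊢
        push Not at hω
        exact hω.2.2
      · exact Eventually.of_forall fun ω _ h5 => absurd h5 h3
    · exact Eventually.of_forall fun ω h5 => absurd h5 h2
  filter_upwards [h1] with ω hω
  by_contra hcon
  rw [not_le] at hcon
  have hsg : ∀ p, mix A (fun q => f q ω) p = 1 ∨ mix A (fun q => f q ω) p = -1 :=
    mix_val fun p => h.val p ω
  have hhalf := half_le hsg
  obtain ⟨α, hα1, hα2⟩ := exists_rat_btwn hcon
  obtain ⟨C, hC0, hC⟩ := (bd_of_gexp (fun n => rf_le hsg n) hα1).all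
  obtain ⟨L, hL⟩ := exists_nat_ge C
  refine hω α L (by linarith) hα2 fun N hN => ?_
  refine (MF_le hN fun R hR _ x => hC R hR x).trans hL

end Pool.Agent.U322.FZ
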